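import Pool.Agent.H.MP_f56686_gt.A

open Set Filter Topology Uniformity

namespace Pool.Agent.Results.MP_f56686_gt.Strong

open Pool.Agent.H.MP_f56686_gt

theorem result : ∃ (X : Type) (_ : UniformSpace X), T0Space X ∧ Narrow X ∧
    ∃ τ : TopologicalSpace (FreeGroup X), IsFreeTop X τ ∧
      (∀ (G : Type) [Group G] [t : TopologicalSpace G] [IsTopologicalGroup G] (f : X → G),
        TwoSidedUC t f → @Continuous _ _ τ t (FreeGroup.lift f)) ∧
      ¬ TukeyLE (RevIncl (@nhds _ τ 1).sets)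
        ((ℕ → ℕ) × (ℕ → RevIncl {U ∈ (𝓤 X).sets | ∀ x y, (x, y) ∈ U → (y, x) ∈ U})) := by
  obtain ⟨u, hu⟩ := exists_spec
  obtain ⟨τ, hτ⟩ := @exists_free _ u
  obtain ⟨b, hb⟩ := hu.bound
  refine ⟨_, u, hu.t0, hu.narrow, τ, hτ, fun G _ _ _ f hf => @IsFreeTop.lift _ u _ hτ G _ _ _ f hf,
    hu.main hτ (fun q i => q.1 i + b (OrderDual.ofDual (q.2 i)).1) fun q hq => ?_⟩
  choose m hm using hq
  choose V hV hs h using fun i => hb _ (fun k => (OrderDual.ofDual ((q k).2 i)).2.1)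
    ⟨m i, by rintro _ ⟨k, rfl⟩; exact (Nat.le_add_left _ _).trans (hm i ⟨k, rfl⟩)⟩
  refine ⟨(m, fun i => OrderDual.toDual ⟨V i, hV i, hs i⟩), ?_⟩
  rintro _ ⟨k, rfl⟩
  exact ⟨fun i => (Nat.le_add_right _ _).trans (hm i ⟨k, rfl⟩), fun i => h i k⟩

end Pool.Agent.Results.MP_f56686_gt.Strong
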